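import Pool.Agent.H34.LS.Descent

/-!
# MP_efb7cb_ag: lower semicontinuity of minimal log discrepancies descends along crepant models
-/

namespace Pool.Agent.Results.MP_efb7cb_ag.CrepantDescent

open Pool.Agent.H34.LS

/-- Let `P` be a generalized pair on a normal variety `X`, `v ≤ w` points of `X` (`v` in the
closure of `w`), and `C` a crepant model of `P` over a neighbourhood of `v`: a proper birational
`f : Y ⟶ U`, `Y` normal, `v ∈ U` open in `X`, and a generalized pair `Q` on `Y` (with effective
boundary) with the same log discrepancies as `P`.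

* If the inequality of lower semicontinuity holds for `Q` at all points `v' ≤ w'` of `Y` over `v`
  and `w`, then it holds for `P` at `v ≤ w`.
* It is enough to have it at one point `w'` over `w` with `mld_(w') Q ≤ mld_w P`, and at the
  points `v' ≤ w'` over `v` with `codim (v', w') ≤ c`, to get `mld_v P ≤ mld_w P + c` for
  `c ≥ codim (v, w)`. -/
theorem result {k K : Type} [Field k] [Field K] [Algebra k K] {N : ℕ} (X : Model k K)
    (P : GPair N X) (v w : X.X) (hvw : v ≤ w) (C : CrepantModel AllPairs P v) :
    (C.LSCOver w → LSCAt P v w) ∧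
    (∀ (c : ℕ) (w' : C.Y.X), codim v w ≤ c → C.image w' = w → mld C.Q w' ≤ mld P w →
      C.BoundBelow w' c → mld P v ≤ mld P w + c) :=
  ⟨lscAt_of_model P hvw C, fun c w' hc hw' hm H => mld_le_of_model P hvw C c w' hc hw' hm H⟩

end Pool.Agent.Results.MP_efb7cb_ag.CrepantDescent
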