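import Pool.Agent.H34.LS.Level

/-!
# MP_efb7cb_ag: lower semicontinuity of minimal log discrepancies up to level two, in every
dimension
-/

namespace Pool.Agent.Results.MP_efb7cb_ag.LevelTwo

open Pool.Agent.H34.LS Order

/-- Let `Cl` be a class of generalized pairs for which the published facts `Facts` hold, and `P` a
generalized pair of this class on `X`, of any dimension `N ≥ 2`.

* For every real `a`, every point of the closure of the set of the closed points at which
  closedness of `{mld ≤ a}` fails has dimension less than `a - 2`.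
* In particular `{x closed : mld_x ≤ a}` is closed for every `a ≤ 2`.
* The inequality of lower semicontinuity holds at `v ≤ w` if `mld_w ≤ 1` and
  `codim (v, w) ≤ 2`. -/
theorem result {k K : Type} [Field k] [Field K] [Algebra k K] {N : ℕ}
    (Cl : ∀ X : Model k K, GPair N X → Prop) (F : Facts Cl) (X : Model k K) (P : GPair N X)
    (hP : Cl X P) :
    (∀ a : ℝ, ∀ v ∈ closure (failing P a), ∃ d : ℕ, height v = d ∧ (d : ℝ) < a - 2) ∧
    (∀ a : EReal, a ≤ 2 →
      ∃ Z : Set X.X, IsClosed Z ∧ ∀ x : X.X, IsClosed {x} → (x ∈ Z ↔ mld P x ≤ a)) ∧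
    (∀ v w : X.X, v ≤ w → w ≠ ⊤ → mld P w ≤ 1 → codim v w ≤ 2 → LSCAt P v w) :=
  ⟨failing_dim F X P hP, closed_level F X P hP, lsc_of_le_one F X P hP⟩

end Pool.Agent.Results.MP_efb7cb_ag.LevelTwo
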